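import Pool.Agent.Helper45.HD.Dig

set_option autoImplicit false

/-!
The total influence of the noise operator.
-/

namespace Pool.Agent.Helper72.HD

open Finset
open Pool.Agent.Helper45.HD

/-- the norm -/
noncomputable def nm (b K : ℕ) (u : ℕ → ℝ) : ℝ := ∑ n ∈ range (b ^ K), u n ^ 2

/-- the part of `u` that depends on the digit at `k` -/
noncomputable def Dk (b k : ℕ) (u : ℕ → ℝ) (n : ℕ) : ℝ := u n - Ed b k u n

/-- one step of the noise -/
noncomputable def St (b : ℕ) (t : ℝ) (k : ℕ) (u : ℕ → ℝ) (n : ℕ) : ℝ :=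
  (1 - t) * u n + t * Ed b k u n

lemma Tn_succ (b : ℕ) (t : ℝ) (k : ℕ) (g : ℕ → ℝ) : Tn b t (k + 1) g = St b t k (Tn b t k g) := rfl

/-- the norm of a step -/
lemma nm_St {b k K : ℕ} (hb : 2 ≤ b) (hk : k < K) (t : ℝ) (u : ℕ → ℝ) :
    nm b K (St b t k u) = nm b K u - t * (2 - t) * nm b K (Dk b k u) := by
  have h1 := Ed_adj hb hk u u
  have h2 := Ed_pyth hb hk u
  have h3 : nm b K (Dk b k u) = nm b K u - ∑ n ∈ range (b ^ K), Ed b k u n ^ 2 := h2
  have h4 : nm b K (St b t k u) = (1 - t) ^ 2 * nm b K u +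
      2 * (1 - t) * t * ∑ n ∈ range (b ^ K), u n * Ed b k u n +
      t ^ 2 * ∑ n ∈ range (b ^ K), Ed b k u n ^ 2 := by
    unfold nm St
    rw [Finset.mul_sum, Finset.mul_sum, Finset.mul_sum, ← Finset.sum_add_distrib,
      ← Finset.sum_add_distrib]
    refine Finset.sum_congr rfl fun n _ => ?_
    ring
  have h5 : ∑ n ∈ range (b ^ K), Ed b k u n * Ed b k u n =
      ∑ n ∈ range (b ^ K), Ed b k u n ^ 2 := Finset.sum_congr rfl fun n _ => by ring
  rw [h4, h1, h5, h3]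
  ring

lemma nm_nonneg (b K : ℕ) (u : ℕ → ℝ) : 0 ≤ nm b K u := Finset.sum_nonneg fun _ _ => sq_nonneg _

lemma nm_St_le {b k K : ℕ} (hb : 2 ≤ b) (hk : k < K) {t : ℝ} (ht : 0 < t) (ht1 : t ≤ 1)
    (u : ℕ → ℝ) : nm b K (St b t k u) ≤ nm b K u := by
  rw [nm_St hb hk]
  have h1 := nm_nonneg b K (Dk b k u)
  have h2 : 0 ≤ t * (2 - t) * nm b K (Dk b k u) :=
    mul_nonneg (mul_nonneg ht.le (by linarith)) h1
  linarith

/-- the derivative in the direction of an already treated digit -/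
lemma Dk_St_same {b : ℕ} (hb : 2 ≤ b) (t : ℝ) (k : ℕ) (u : ℕ → ℝ) (n : ℕ) :
    Dk b k (St b t k u) n = (1 - t) * Dk b k u n := by
  unfold Dk
  have h1 : Ed b k (St b t k u) n = (1 - t) * Ed b k u n + t * Ed b k u n := by
    have h2 : Ed b k (St b t k u) n =
        Ed b k (fun m => (1 - t) * u m + t * Ed b k u m) n := rfl
    rw [h2, Ed_add b k (fun m => (1 - t) * u m) (fun m => t * Ed b k u m), Ed_smul, Ed_smul,
      Ed_idem hb]
  rw [h1]
  unfold St
  ring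

lemma Dk_St {b : ℕ} (hb : 2 ≤ b) (t : ℝ) (k l : ℕ) (u : ℕ → ℝ) (n : ℕ) :
    Dk b k (St b t l u) n = St b t l (Dk b k u) n := by
  have h1 : Ed b k (St b t l u) n = (1 - t) * Ed b k u n + t * Ed b l (Ed b k u) n := by
    have h2 : Ed b k (St b t l u) n =
        Ed b k (fun m => (1 - t) * u m + t * Ed b l u m) n := rfl
    rw [h2, Ed_add b k (fun m => (1 - t) * u m) (fun m => t * Ed b l u m), Ed_smul, Ed_smul,
      Ed_comm hb]
  have h3 : Ed b l (Dk b k u) n = Ed b l u n - Ed b l (Ed b k u) n := by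
    have h4 : Ed b l (Dk b k u) n = Ed b l (fun m => u m - Ed b k u m) n := rfl
    rw [h4, Ed_sub]
  have h5 : Dk b k (St b t l u) n = St b t l u n - Ed b k (St b t l u) n := rfl
  have h6 : St b t l (Dk b k u) n = (1 - t) * Dk b k u n + t * Ed b l (Dk b k u) n := rfl
  have h7 : St b t l u n = (1 - t) * u n + t * Ed b l u n := rfl
  have h8 : Dk b k u n = u n - Ed b k u n := rfl
  rw [h5, h6, h1, h3, h7, h8]
  ring

lemma Dk_Tn_le {b K : ℕ} (hb : 2 ≤ b) {t : ℝ} (ht : 0 < t) (ht1 : t ≤ 1) (g : ℕ → ℝ) (k : ℕ) :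
    ∀ d, k + 1 + d ≤ K → nm b K (Dk b k (Tn b t (k + 1 + d) g)) ≤ nm b K (Dk b k (Tn b t k g))
  | 0, hd => by
    have h1 : Dk b k (Tn b t (k + 1 + 0) g) = fun n => (1 - t) * Dk b k (Tn b t k g) n := by
      funext n
      exact Dk_St_same hb t k (Tn b t k g) n
    rw [h1]
    unfold nm
    refine Finset.sum_le_sum fun n _ => ?_
    rw [mul_pow]
    refine mul_le_of_le_one_left (sq_nonneg _) ?_
    exact pow_le_one₀ (by linarith) (by linarith)
  | d + 1, hd => by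
    have h1 : Dk b k (Tn b t (k + 1 + (d + 1)) g) =
        St b t (k + 1 + d) (Dk b k (Tn b t (k + 1 + d) g)) := by
      funext n
      exact Dk_St hb t k (k + 1 + d) (Tn b t (k + 1 + d) g) n
    rw [h1]
    exact (nm_St_le hb (by omega) ht ht1 _).trans (Dk_Tn_le hb ht ht1 g k d (by omega))

lemma sum_Dk {b K : ℕ} (hb : 2 ≤ b) (t : ℝ) (g : ℕ → ℝ) :
    ∀ k, k ≤ K → t * (2 - t) * ∑ i ∈ range k, nm b K (Dk b i (Tn b t i g)) =
      nm b K g - nm b K (Tn b t k g)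
  | 0, _ => by
    rw [Finset.sum_range_zero, mul_zero]
    have h1 : Tn b t 0 g = g := rfl
    rw [h1, sub_self]
  | k + 1, hk => by
    rw [Finset.sum_range_succ, mul_add, sum_Dk hb t g k (by omega), Tn_succ,
      nm_St hb (by omega : k < K)]
    ring

/-- (C) -/
theorem stIn : StIn := by
  intro b K t hb ht ht1 g
  have h1 : ∀ i ∈ range K, ∑ n ∈ range (b ^ K), (Tn b t K g n - Ed b i (Tn b t K g) n) ^ 2 ≤
      nm b K (Dk b i (Tn b t i g)) := by
    intro i hi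
    have hi := mem_range.1 hi
    have h2 := Dk_Tn_le hb ht ht1 g i (K - (i + 1)) (by omega : i + 1 + (K - (i + 1)) ≤ K)
    rw [show i + 1 + (K - (i + 1)) = K by omega] at h2
    exact h2
  refine (Finset.sum_le_sum h1).trans ?_
  have h2 := sum_Dk (K := K) hb t g K le_rfl
  have h3 := nm_nonneg b K (Tn b t K g)
  have h4 : 0 ≤ ∑ i ∈ range K, nm b K (Dk b i (Tn b t i g)) :=
    Finset.sum_nonneg fun _ _ => nm_nonneg _ _ _
  rw [le_div_iff₀ ht]
  have h5 : nm b K g = ∑ n ∈ range (b ^ K), g n ^ 2 := rfl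
  rw [← h5]
  have h6 : (∑ i ∈ range K, nm b K (Dk b i (Tn b t i g))) * t ≤
      t * (2 - t) * ∑ i ∈ range K, nm b K (Dk b i (Tn b t i g)) := by
    have : 1 ≤ 2 - t := by linarith
    nlinarith [mul_nonneg ht.le h4]
  linarith

end Pool.Agent.Helper72.HD
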