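import Pool.Agent.Helper45.HD.Frames
import Pool.Agent.Helper72.AC.Struct

set_option autoImplicit false

/-!
Hidden digits: the corollary for the sets of Q1 and Q2.
-/

namespace Pool.Agent.Helper72.HD

open Finset Filter
open Pool.Agent.Helper57.U2 (rep IsChoice upTo digit)
open Pool.Agent.Helper72.Struct (Sums mem_upTo dense)
open Pool.Agent.Helper45.HD (HiddenGuesses StHD)

lemma sum_rep_le (A : Set ℕ) {C : ℝ} (hA : ∀ n, (rep A n : ℝ) ≤ C) (x : ℕ) :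
    ∑ n ∈ range (2 * x), (rep A n : ℝ) ^ 2 ≤ 2 * C ^ 2 * x := by
  calc ∑ n ∈ range (2 * x), (rep A n : ℝ) ^ 2 ≤ ∑ _n ∈ range (2 * x), C ^ 2 :=
        Finset.sum_le_sum fun n _ => pow_le_pow_left₀ (Nat.cast_nonneg _) (hA n) 2
    _ = 2 * C ^ 2 * x := by
        rw [Finset.sum_const, card_range, nsmul_eq_mul]
        push_cast
        ring

/-- In a counterexample to Q1 or Q2 hiding a bounded number of random digits of `n` makes the
digits of every choice of a summand unpredictable. -/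
theorem hidden_of (hHD : StHD) (b : ℕ) (hb : 2 ≤ b) (C c ε : ℝ) (hC0 : 0 < C) (hc : 0 < c)
    (hε : 0 < ε) : ∃ T : ℝ, 0 < T ∧ ∀ A : Set ℕ, (∀ n, (rep A n : ℝ) ≤ C) →
      (∀ᶠ x : ℕ in atTop, c * √x ≤ #(upTo A x)) →
      ∀ f : ℕ → ℕ, IsChoice A (Sums A) f → ∀ᶠ K : ℕ in atTop, ∀ t : ℝ, T / K ≤ t → t ≤ 1 →
        ∀ J : Finset ℕ → ℕ → ℕ → ℕ, ¬ HiddenGuesses b K t ε (Sums A) f J := by
  classical
  have hb0 : (0 : ℝ) < b := by
    have : 0 < b := by omega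
    exact_mod_cast this
  obtain ⟨γ, hγ, h⟩ := hHD b hb ε (c ^ 2 / (4 * C)) hε (by positivity)
  obtain ⟨Λ, hΛ⟩ : ∃ Λ : ℝ, Λ = max 1 (Real.log (2 * C ^ 2 / γ)) := ⟨_, rfl⟩
  have hΛ1 : 1 ≤ Λ := by rw [hΛ]; exact le_max_left _ _
  refine ⟨(Λ + 1) / γ, by positivity, fun A hA hthick f hf => ?_⟩
  filter_upwards [dense b hb hC0 hc A hA hthick, eventually_ge_atTop 1] with K hD hK1 t ht ht1 J hJ
  have hK0 : (0 : ℝ) < K := by exact_mod_cast hK1
  have ht0 : 0 < t := lt_of_lt_of_le (by positivity) ht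
  have h1 := (h A (Sums A) f hf K hD t ht0 ht1 J hJ).trans
    (by simpa using sum_rep_le A hA (b ^ K))
  have h2 : Real.exp (γ * t * K) ≤ 2 * C ^ 2 / γ := by
    rw [le_div_iff₀ hγ]
    have h4 : (0 : ℝ) < (b : ℝ) ^ K := by positivity
    have h5 : (b : ℝ) ^ K * (Real.exp (γ * t * K) * γ) ≤ (b : ℝ) ^ K * (2 * C ^ 2) := by
      nlinarith
    exact le_of_mul_le_mul_left h5 h4
  have h3 : γ * t * K ≤ Λ := by
    have h5 := Real.log_le_log (Real.exp_pos _) h2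
    rw [Real.log_exp] at h5
    rw [hΛ]
    exact h5.trans (le_max_right _ _)
  rw [div_le_iff₀ hK0, div_le_iff₀ hγ] at ht
  nlinarith

end Pool.Agent.Helper72.HD
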