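import Pool.Agent.Helper7.SC.TextSet

set_option autoImplicit false

/-!
In a set with bounded representation function the digits of the summands of `n` cannot be guessed
from the digits of `n` once a bounded number of random digits of `n` is hidden.
-/

namespace Pool.Agent.Helper72.HD.Self

open Finset

open Classical in
/-- The number of ordered pairs of elements of `A` with sum `n`. -/
noncomputable def rep (A : Set ℕ) (n : ℕ) : ℕ := #{p ∈ antidiagonal n | p.1 ∈ A ∧ p.2 ∈ A}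

/-- The digit of `n` at position `i` in base `b`. -/
def digit (b i n : ℕ) : ℕ := n / b ^ i % b

/-- `J R i n` depends only on the digits of `n` at the positions below `K` outside `R`: it is the
guess of digit `i` when the positions in `R` are hidden. -/
def IsRule (b K : ℕ) (J : Finset ℕ → ℕ → ℕ → ℕ) : Prop :=
  ∀ R i m n, (∀ q < K, q ∉ R → digit b q m = digit b q n) → J R i m = J R i n

/-- The expected number of digits `i < K` of `a` which the rule `J` guesses from the digits of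
`n` outside a random set `R`: each position below `K` is in `R` with probability `t`,
independently. -/
noncomputable def hits (b K : ℕ) (t : ℝ) (J : Finset ℕ → ℕ → ℕ → ℕ) (n a : ℕ) : ℝ :=
  ∑ R ∈ (range K).powerset, t ^ #R * (1 - t) ^ (K - #R) * #{i ∈ range K | J R i n = digit b i a}

open Classical in
/-- The `n < b ^ K` with some representation `n = a + a'`, `a` and `a'` in `A`, such that `J`
guesses on average at least the proportion `1 / b + ε` of the `K` digits of `a`. -/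
noncomputable def guessedSet (b K : ℕ) (t ε : ℝ) (A : Set ℕ) (J : Finset ℕ → ℕ → ℕ → ℕ) :
    Finset ℕ :=
  {n ∈ range (b ^ K) | ∃ a ∈ A, ∃ a' ∈ A, a + a' = n ∧ (1 / b + ε) * K ≤ hits b K t J n a}

/-- `g` is a function of at most `v` base `b` digits of its argument. -/
def FewDigits (b v : ℕ) (g : ℕ → ℕ) : Prop :=
  ∃ Q : Finset ℕ, #Q ≤ v ∧ ∀ m n, (∀ q ∈ Q, digit b q m = digit b q n) → g m = g n

open Classical in
/-- The `n < b ^ K` with some representation `n = a + a'`, `a` and `a'` in `A`, such that `J i n`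
is the digit of `a` at position `i` for at least `(1 / b + ε) K` of the `i < K`. -/
noncomputable def guessed (b K : ℕ) (ε : ℝ) (A : Set ℕ) (J : ℕ → ℕ → ℕ) : Finset ℕ :=
  {n ∈ range (b ^ K) | ∃ a ∈ A, ∃ a' ∈ A, a + a' = n ∧
    (1 / b + ε) * K ≤ (#{i ∈ range K | J i n = digit b i a} : ℝ)}

theorem result :
    (∀ (b C : ℕ) (ε δ : ℝ), 2 ≤ b → 0 < ε → 0 < δ → ∃ T : ℝ, 0 < T ∧
      ∀ A : Set ℕ, (∀ n, rep A n ≤ C) → ∀ (K : ℕ) (t : ℝ), T ≤ t * K → t ≤ 1 →
      ∀ J : Finset ℕ → ℕ → ℕ → ℕ, IsRule b K J →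
        (#(guessedSet b K t ε A J) : ℝ) < δ * (b : ℝ) ^ K) ∧
    (∀ (b : ℕ) (ε δ : ℝ), 2 ≤ b → 0 < ε → 0 < δ → ∃ c : ℝ, 0 < c ∧
      ∀ (A : Set ℕ) (K : ℕ) (t : ℝ), 0 < t → t ≤ 1 →
      ∀ J : Finset ℕ → ℕ → ℕ → ℕ, IsRule b K J → δ * (b : ℝ) ^ K ≤ #(guessedSet b K t ε A J) →
        c * (b : ℝ) ^ K * Real.exp (c * t * K) ≤ ∑ n ∈ range (2 * b ^ K), (rep A n : ℝ) ^ 2) ∧
    (∃ C : ℝ, 0 < C ∧ ∀ b v m : ℕ, 2 ≤ b → 1 ≤ v →
      ∃ (A : Set ℕ) (J : Finset ℕ → ℕ → ℕ → ℕ), IsRule b (v * m) J ∧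
        guessedSet b (v * m) (1 / (4 * v)) (1 / 4) A J = range (b ^ (v * m)) ∧
        ∑ n ∈ range (2 * b ^ (v * m)), (rep A n : ℝ) ^ 2 ≤
          (b : ℝ) ^ (v * m) * Real.exp (C * m)) ∧
    (∀ (b : ℕ) (ε : ℝ), 2 ≤ b → 0 < ε → ∃ c : ℝ, 0 < c ∧
      ∀ (A : Set ℕ) (K v : ℕ) (J : ℕ → ℕ → ℕ), 1 ≤ v → (∀ i < K, FewDigits b v (J i)) →
        c * (#(guessed b K ε A J) : ℝ) ^ 2 * Real.exp (c * K / v) ≤
          (b : ℝ) ^ K * ∑ n ∈ range (2 * b ^ K), (rep A n : ℝ) ^ 2) :=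
  Pool.Agent.Helper7.SC.TextSet.result

end Pool.Agent.Helper72.HD.Self
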